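import Pool.Agent.J4H58.OC.Stm4
import Pool.Agent.R372.OP.SYM

/-!
# Symmetrisation by sorting (job OC-SRT)
-/

set_option autoImplicit false

namespace Pool.Agent.J4H48.OC

open MeasureTheory Set Filter Topology
open Pool.Agent.W695.KH (Eu)
open Pool.Agent.J4H58.OC (ordE SymF S_SRT ord)
open Pool.Agent.R372.OP.SYM (Lc cntL perm ties)

variable {n : ℕ}

open Classical in
/-- linear extensions -/
noncomputable def LE (R : Fin n → Fin n → Prop) : Finset (Equiv.Perm (Fin n)) :=
  Finset.univ.filter fun q => ∀ a b, R a b → q a ≤ q b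

theorem LE_pos (R : Fin n → Fin n → Prop) (h1 : ∀ a b, R a b → R b a → a = b)
    (h2 : ∀ a b c, R a b → R b c → R a c) : (LE R).Nonempty := by
  classical
  have hr : IsPartialOrder (Fin n) (fun a b => a = b ∨ R a b) :=
    { refl := fun a => Or.inl rfl
      trans := by
        rintro a b c (rfl | h) (rfl | h')
        · exact Or.inl rfl
        · exact Or.inr h'
        · exact Or.inr h
        · exact Or.inr (h2 _ _ _ h h')
      antisymm := by
        rintro a b (rfl | h) (h' | h')
        · rfl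
        · rfl
        · exact h'.symm
        · exact h1 _ _ h h' }
  obtain ⟨s, hs, hrs⟩ := extend_partialOrder (fun a b => a = b ∨ R a b)
  have hrefl : ∀ a, s a a := fun a => hrs a a (Or.inl rfl)
  have htr : ∀ a b c, s a b → s b c → s a c := fun a b c => hs.trans a b c
  have hanti : ∀ a b, s a b → s b a → a = b := fun a b => hs.antisymm a b
  have htot : ∀ a b, s a b ∨ s b a := fun a b => hs.total a b
  let x : Fin n → ℝ := fun a => ((Finset.univ.filter fun b => s b a).card : ℝ)
  have hmono : ∀ a b, s a b → x a ≤ x b := by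
    intro a b hab
    have : (Finset.univ.filter fun c => s c a).card ≤ (Finset.univ.filter fun c => s c b).card := by
      apply Finset.card_le_card
      intro c hc
      rw [Finset.mem_filter] at hc ⊢
      exact ⟨hc.1, htr _ _ _ hc.2 hab⟩
    exact Nat.cast_le.2 this
  have hstrict : ∀ a b, s a b → a ≠ b → x a < x b := by
    intro a b hab hne
    have : (Finset.univ.filter fun c => s c a).card < (Finset.univ.filter fun c => s c b).card := by
      apply Finset.card_lt_card
      rw [Finset.ssubset_iff_of_subset]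
      · refine ⟨b, by rw [Finset.mem_filter]; exact ⟨Finset.mem_univ _, hrefl b⟩, ?_⟩
        intro hc
        rw [Finset.mem_filter] at hc
        exact hne (hanti _ _ hab hc.2)
      · intro c hc
        rw [Finset.mem_filter] at hc ⊢
        exact ⟨hc.1, htr _ _ _ hc.2 hab⟩
    exact Nat.cast_lt.2 this
  have hinj : Function.Injective x := by
    intro a b hab
    by_contra hne
    rcases htot a b with h | h
    · exact absurd hab (hstrict a b h hne).ne
    · exact absurd hab (hstrict b a h (Ne.symm hne)).ne'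
  have h := cntL R x hinj
  have hmem : (1 : Equiv.Perm (Fin n)) ∈
      Finset.univ.filter fun p : Equiv.Perm (Fin n) => ∀ a b, R a b → x (p a) ≤ x (p b) := by
    rw [Finset.mem_filter]
    exact ⟨Finset.mem_univ _, fun a b hab => hmono a b (hrs a b (Or.inr hab))⟩
  have hpos : 0 < Lc R := by
    rw [← h]
    exact Finset.card_pos.2 ⟨1, hmem⟩
  have e : (LE R).card = Lc R := rfl
  rw [← Finset.card_pos, e]
  exact hpos

theorem mem_LE (R : Fin n → Fin n → Prop) (q : Equiv.Perm (Fin n)) :
    q ∈ LE R ↔ ∀ a b, R a b → q a ≤ q b := by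
  classical
  unfold LE
  rw [Finset.mem_filter]
  simp

theorem pt2 (R : Fin n → Fin n → Prop) (F : (Fin n → ℝ) → ℝ) (x : Fin n → ℝ)
    (hx : Function.Injective x) :
    ∑ p : Equiv.Perm (Fin n), (ord R).indicator F (fun i => x (p i)) =
      ∑ q ∈ LE R, F (fun i => x (Tuple.sort x (q i))) := by
  classical
  have hs : StrictMono (x ∘ Tuple.sort x) :=
    (Tuple.monotone_sort x).strictMono_of_injective (hx.comp (Tuple.sort x).injective)
  rw [← Equiv.sum_comp (Equiv.mulLeft (Tuple.sort x))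
    (fun p : Equiv.Perm (Fin n) => (ord R).indicator F (fun i => x (p i)))]
  have h1 : ∀ q : Equiv.Perm (Fin n),
      (ord R).indicator F (fun i => x ((Equiv.mulLeft (Tuple.sort x) q) i)) =
        if q ∈ LE R then F (fun i => x (Tuple.sort x (q i))) else 0 := by
    intro q
    have key : (fun i => x ((Equiv.mulLeft (Tuple.sort x) q) i)) ∈ ord R ↔ q ∈ LE R := by
      rw [mem_LE]
      have hk : ∀ a b, x ((Equiv.mulLeft (Tuple.sort x) q) a) ≤ x ((Equiv.mulLeft (Tuple.sort x) q) b) ↔
          q a ≤ q b := fun a b => hs.le_iff_le (a := q a) (b := q b)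
      exact forall_congr' fun a => forall_congr' fun b => imp_congr_right fun _ => hk a b
    by_cases h : q ∈ LE R
    · rw [indicator_of_mem (key.2 h), if_pos h]
      rfl
    · rw [indicator_of_notMem (fun hc => h (key.1 hc)), if_neg h]
  rw [Finset.sum_congr rfl (fun q _ => h1 q), Finset.sum_ite_mem, Finset.univ_inter]

theorem sort_le (x y : Fin n → ℝ) :
    ∑ i, (x (Tuple.sort x i) - y (Tuple.sort y i)) ^ 2 ≤ ∑ i, (x i - y i) ^ 2 := by
  have hx : Monotone (x ∘ Tuple.sort x) := Tuple.monotone_sort x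
  have hy : Monotone (y ∘ Tuple.sort y) := Tuple.monotone_sort y
  have h1 : ∑ i, x (Tuple.sort x i) ^ 2 = ∑ i, x i ^ 2 :=
    Equiv.sum_comp (Tuple.sort x) (fun i => x i ^ 2)
  have h2 : ∑ i, y (Tuple.sort y i) ^ 2 = ∑ i, y i ^ 2 :=
    Equiv.sum_comp (Tuple.sort y) (fun i => y i ^ 2)
  have h3 : ∑ i, x i * y i ≤ ∑ i, x (Tuple.sort x i) * y (Tuple.sort y i) := by
    have h4 := (hx.monovary hy).sum_mul_comp_perm_le_sum_mul
      (σ := (Tuple.sort y)⁻¹ * Tuple.sort x)
    have h5 : ∑ i, (x ∘ Tuple.sort x) i * (y ∘ Tuple.sort y) (((Tuple.sort y)⁻¹ * Tuple.sort x) i) =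
        ∑ i, x i * y i := by
      rw [← Equiv.sum_comp (Tuple.sort x) (fun i => x i * y i)]
      apply Finset.sum_congr rfl
      intro i _
      simp [Equiv.Perm.mul_apply]
    rw [h5] at h4
    exact h4
  have e1 : ∑ i, (x (Tuple.sort x i) - y (Tuple.sort y i)) ^ 2 =
      ∑ i, x (Tuple.sort x i) ^ 2 + ∑ i, y (Tuple.sort y i) ^ 2 -
        2 * ∑ i, x (Tuple.sort x i) * y (Tuple.sort y i) := by
    rw [Finset.mul_sum, ← Finset.sum_add_distrib, ← Finset.sum_sub_distrib]
    exact Finset.sum_congr rfl fun i _ => by ring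
  have e2 : ∑ i, (x i - y i) ^ 2 = ∑ i, x i ^ 2 + ∑ i, y i ^ 2 - 2 * ∑ i, x i * y i := by
    rw [Finset.mul_sum, ← Finset.sum_add_distrib, ← Finset.sum_sub_distrib]
    exact Finset.sum_congr rfl fun i _ => by ring
  rw [e1, e2, h1, h2]
  linarith

/-- the symmetrised function -/
noncomputable def TT (R : Fin n → Fin n → Prop) (U : Eu (Fin n) → ℝ) (x : Eu (Fin n)) : ℝ :=
  (∑ q ∈ LE R, U (WithLp.toLp 2 fun i => x (Tuple.sort x.ofLp (q i)))) / (LE R).card

theorem TT_lip (R : Fin n → Fin n → Prop) (hR : (LE R).Nonempty) (U : Eu (Fin n) → ℝ) (l : ℝ)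
    (hl : 0 ≤ l) (hU : ∀ x y, |U x - U y| ≤ l * ‖x - y‖) (x y : Eu (Fin n)) :
    |TT R U x - TT R U y| ≤ l * ‖x - y‖ := by
  have hc : (0 : ℝ) < (LE R).card := by exact_mod_cast Finset.card_pos.2 hR
  have key : ∀ q ∈ LE R, |U (WithLp.toLp 2 fun i => x (Tuple.sort x.ofLp (q i))) -
      U (WithLp.toLp 2 fun i => y (Tuple.sort y.ofLp (q i)))| ≤ l * ‖x - y‖ := by
    intro q _
    refine (hU _ _).trans (mul_le_mul_of_nonneg_left ?_ hl)
    apply le_of_sq_le_sq _ (norm_nonneg _)
    rw [EuclideanSpace.norm_sq_eq, EuclideanSpace.norm_sq_eq]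
    have e1 : ∑ i, ‖((WithLp.toLp 2 fun i => x (Tuple.sort x.ofLp (q i)) : Eu (Fin n)) -
        (WithLp.toLp 2 fun i => y (Tuple.sort y.ofLp (q i)) : Eu (Fin n))) i‖ ^ 2 =
        ∑ i, (x.ofLp (Tuple.sort x.ofLp i) - y.ofLp (Tuple.sort y.ofLp i)) ^ 2 := by
      rw [← Equiv.sum_comp q (fun i => (x.ofLp (Tuple.sort x.ofLp i) -
        y.ofLp (Tuple.sort y.ofLp i)) ^ 2)]
      apply Finset.sum_congr rfl
      intro i _
      rw [Real.norm_eq_abs, sq_abs]
      rfl
    have e2 : ∑ i, ‖(x - y) i‖ ^ 2 = ∑ i, (x.ofLp i - y.ofLp i) ^ 2 := by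
      apply Finset.sum_congr rfl
      intro i _
      rw [Real.norm_eq_abs, sq_abs]
      rfl
    rw [e1, e2]
    exact sort_le x.ofLp y.ofLp
  unfold TT
  rw [← sub_div, abs_div, abs_of_pos hc, div_le_iff₀ hc, ← Finset.sum_sub_distrib]
  refine (Finset.abs_sum_le_sum_abs _ _).trans ((Finset.sum_le_sum key).trans (le_of_eq ?_))
  rw [Finset.sum_const, nsmul_eq_mul, mul_comm]

theorem TT_nonneg (R : Fin n → Fin n → Prop) (U : Eu (Fin n) → ℝ)
    (hU : ∀ x, 0 ≤ U x) (x : Eu (Fin n)) : 0 ≤ TT R U x :=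
  div_nonneg (Finset.sum_nonneg fun _ _ => hU _) (Nat.cast_nonneg _)

theorem TT_le (R : Fin n → Fin n → Prop) (hR : (LE R).Nonempty) (U : Eu (Fin n) → ℝ)
    (hU : ∀ x, U x ≤ 4) (x : Eu (Fin n)) : TT R U x ≤ 4 := by
  have hc : (0 : ℝ) < (LE R).card := by exact_mod_cast Finset.card_pos.2 hR
  unfold TT
  rw [div_le_iff₀ hc]
  refine (Finset.sum_le_sum fun q _ => hU _).trans (le_of_eq ?_)
  rw [Finset.sum_const, nsmul_eq_mul, mul_comm]

theorem ord_meas (R : Fin n → Fin n → Prop) : MeasurableSet (ord R) := by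
  have h : ord R = ⋂ i, ⋂ j, ⋂ (_ : R i j), {x | x i ≤ x j} := by
    ext x; simp only [ord, mem_ofPred_eq, mem_iInter]
  rw [h]
  exact (isClosed_iInter fun i =>
      isClosed_iInter fun j => isClosed_iInter fun _ =>
        isClosed_le (continuous_apply i) (continuous_apply j)).measurableSet

/-- the integral over the cone, in coordinates -/
theorem E2 (R : Fin n → Fin n → Prop) (F G : (Fin n → ℝ) → ℝ)
    (hi : Integrable fun x => F x * G x)
    (hG : ∀ (p : Equiv.Perm (Fin n)) (x : Fin n → ℝ), G (fun i => x (p i)) = G x) :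
    (Fintype.card (Equiv.Perm (Fin n)) : ℝ) * ∫ x in ord R, F x * G x =
      ∫ x : Fin n → ℝ, (∑ q ∈ LE R, F (fun i => x (Tuple.sort x (q i)))) * G x := by
  have hint : Integrable ((ord R).indicator fun x => F x * G x) := hi.indicator (ord_meas R)
  have h1 : ∀ p : Equiv.Perm (Fin n),
      Integrable (fun x : Fin n → ℝ => (ord R).indicator (fun x => F x * G x) (fun i => x (p i))) := by
    intro p
    exact ((perm p).1.integrable_comp hint.1).2 hint
  calc (Fintype.card (Equiv.Perm (Fin n)) : ℝ) * ∫ x in ord R, F x * G x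
      = ∑ _p : Equiv.Perm (Fin n), ∫ x in ord R, F x * G x := by
        rw [Finset.sum_const, Finset.card_univ, nsmul_eq_mul]
    _ = ∑ p : Equiv.Perm (Fin n), ∫ x : Fin n → ℝ,
          (ord R).indicator (fun x => F x * G x) (fun i => x (p i)) := by
        apply Finset.sum_congr rfl
        intro p _
        rw [(perm p).2, integral_indicator (ord_meas R)]
    _ = ∫ x : Fin n → ℝ, ∑ p : Equiv.Perm (Fin n),
          (ord R).indicator (fun x => F x * G x) (fun i => x (p i)) := by
        rw [integral_finsetSum _ (fun p _ => h1 p)]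
    _ = _ := by
        apply integral_congr_ae
        filter_upwards [ties] with x hx
        rw [pt2 R _ x hx, Finset.sum_mul]
        apply Finset.sum_congr rfl
        intro q _
        congr 1
        exact hG (Tuple.sort x * q) x

theorem eu_int (f : Eu (Fin n) → ℝ) : ∫ x, f x = ∫ x : Fin n → ℝ, f (WithLp.toLp 2 x) :=
  ((PiLp.volume_preserving_toLp (Fin n)).integral_comp
    (MeasurableEquiv.toLp 2 (Fin n → ℝ)).measurableEmbedding f).symm

theorem ordE_meas (R : Fin n → Fin n → Prop) : MeasurableSet (ordE R) := by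
  have h : ordE R = ⋂ i, ⋂ j, ⋂ (_ : R i j), {x : Eu (Fin n) | x i ≤ x j} := by
    ext x; simp only [ordE, mem_ofPred_eq, mem_iInter]
  rw [h]
  exact (isClosed_iInter fun i =>
      isClosed_iInter fun j => isClosed_iInter fun _ =>
        isClosed_le (by fun_prop) (by fun_prop)).measurableSet

theorem eu_set_int (R : Fin n → Fin n → Prop) (f : Eu (Fin n) → ℝ) :
    ∫ x in ordE R, f x = ∫ x in ord R, f (WithLp.toLp 2 x) := by
  rw [← integral_indicator (ordE_meas R), ← integral_indicator (ord_meas R), eu_int]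
  rfl

theorem mainE (R : Fin n → Fin n → Prop) (hR : (LE R).Nonempty) (U : Eu (Fin n) → ℝ) (l : ℝ)
    (h0 : ∀ x, 0 ≤ U x) (h4 : ∀ x, U x ≤ 4)
    (hU : ∀ x y, |U x - U y| ≤ l * ‖x - y‖) (g : Eu (Fin n) → ℝ) (hg : Integrable g)
    (hs : SymF g) :
    ∫ x in ordE R, U x * g x =
      ((LE R).card / Fintype.card (Equiv.Perm (Fin n)) : ℝ) * ∫ x, TT R U x * g x := by
  have hc : (0 : ℝ) < (LE R).card := by exact_mod_cast Finset.card_pos.2 hR
  have hf : (0 : ℝ) < Fintype.card (Equiv.Perm (Fin n)) := by exact_mod_cast Fintype.card_pos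
  have hUc : Continuous U := by
    have hlip : LipschitzWith (Real.toNNReal l) U := by
      apply LipschitzWith.of_dist_le_mul
      intro x y
      rw [Real.dist_eq, dist_eq_norm]
      refine (hU x y).trans ?_
      gcongr
      exact Real.le_coe_toNNReal l
    exact hlip.continuous
  have hUg : Integrable fun x => U x * g x := by
    refine hg.bdd_mul (c := 4) hUc.aestronglyMeasurable (Eventually.of_forall fun x => ?_)
    rw [Real.norm_eq_abs, abs_of_nonneg (h0 x)]
    exact h4 x
  have hi : Integrable fun x : Fin n → ℝ => U (WithLp.toLp 2 x) * g (WithLp.toLp 2 x) :=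
    (PiLp.volume_preserving_toLp (Fin n)).integrable_comp_of_integrable hUg
  have h := E2 R (fun x => U (WithLp.toLp 2 x)) (fun x => g (WithLp.toLp 2 x)) hi
    (fun p x => hs p (WithLp.toLp 2 x))
  rw [eu_set_int, eu_int (fun x => TT R U x * g x)]
  have e : ∫ x : Fin n → ℝ, (∑ q ∈ LE R, U (WithLp.toLp 2 fun i => x (Tuple.sort x (q i)))) *
      g (WithLp.toLp 2 x) = (LE R).card * ∫ x : Fin n → ℝ, TT R U (WithLp.toLp 2 x) *
        g (WithLp.toLp 2 x) := by
    rw [← integral_const_mul]
    congr 1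
    funext x
    unfold TT
    rw [← mul_assoc, mul_div_cancel₀ _ hc.ne']
  rw [e] at h
  rw [div_mul_eq_mul_div, ← h]
  field_simp

theorem t_SRT : S_SRT := by
  intro n R h1 h2
  have hR := LE_pos R h1 h2
  have hc : (0 : ℝ) < (LE R).card := by exact_mod_cast Finset.card_pos.2 hR
  have hf : (0 : ℝ) < Fintype.card (Equiv.Perm (Fin n)) := by exact_mod_cast Fintype.card_pos
  refine ⟨(LE R).card / Fintype.card (Equiv.Perm (Fin n)), by positivity, ?_, ?_⟩
  · intro g hg hs
    have h := mainE R hR (fun _ => 1) 0 (fun _ => by norm_num) (fun _ => by norm_num)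
      (fun x y => by simp) g hg hs
    have e : ∀ x : Eu (Fin n), TT R (fun _ => 1) x = 1 := by
      intro x
      unfold TT
      rw [Finset.sum_const, nsmul_eq_mul, mul_one, div_self hc.ne']
    simp only [e, one_mul] at h
    exact h
  · intro U l hl h0 h4 hU
    exact ⟨TT R U, TT_nonneg R U h0, TT_le R hR U h4, TT_lip R hR U l hl hU,
      fun g hg hs => mainE R hR U l h0 h4 hU g hg hs⟩

end Pool.Agent.J4H48.OC
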