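import Pool.Agent.J4H48.OC.Srt
import Pool.Agent.R476.OR.Fin

/-!
# Variance in the direction `(1, ..., 1)` (job OC-OVR)
-/

set_option autoImplicit false

namespace Pool.Agent.J4H48.OC

open MeasureTheory Set Filter Topology
open scoped ENNReal InnerProductSpace
open Pool.Agent.W695.KH (Eu EV VV)
open Pool.Agent.R476.OR (CV NV SV KV LVL ind bV bb sg rV S_COV fld two plw)
open Pool.Agent.Y506.RG (EW VW)
open Pool.Agent.J4H58.OC (ordE SymF S_SRT S_OVR dgn)

variable {n : ℕ}

theorem dgn_norm (hn : 1 ≤ n) : ‖dgn n‖ = 1 := by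
  have hn0 : (0 : ℝ) < n := by exact_mod_cast hn
  have h : ‖dgn n‖ ^ 2 = 1 := by
    rw [EuclideanSpace.norm_sq_eq]
    have e : ∀ i : Fin n, ‖(dgn n) i‖ ^ 2 = 1 / n := by
      intro i
      show ‖(1 / Real.sqrt n : ℝ)‖ ^ 2 = 1 / n
      rw [Real.norm_eq_abs, sq_abs, div_pow, Real.sq_sqrt hn0.le]
      norm_num
    rw [Finset.sum_congr rfl fun i _ => e i, Finset.sum_const, Finset.card_univ, Fintype.card_fin,
      nsmul_eq_mul]
    field_simp
  have h2 : 0 ≤ ‖dgn n‖ := norm_nonneg _
  nlinarith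

theorem inner_dgn (x : Eu (Fin n)) : ⟪x, dgn n⟫_ℝ = (∑ i, x i) * (1 / Real.sqrt n) := by
  rw [PiLp.inner_apply, Finset.sum_mul]
  apply Finset.sum_congr rfl
  intro i _
  show (1 / Real.sqrt n) * x i = _
  ring

theorem bV_even {W : ℝ → ℝ} (hW : ∀ t, W (-t) = W t) : bV W = 0 := by
  have h : bV W = -bV W := by
    unfold bV
    rw [← integral_neg, ← integral_neg_eq_self]
    congr 1
    funext t
    rw [hW]
    ring
  linarith

theorem KV_sym (W : ℝ → ℝ) (E : ℝ) (p : Equiv.Perm (Fin n)) (x : Eu (Fin n)) :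
    (WithLp.toLp 2 (fun i => x (p i)) : Eu (Fin n)) ∈ KV (fun _ : Fin n => W) E ↔
      x ∈ KV (fun _ : Fin n => W) E := by
  have e : SV (fun _ : Fin n => W) (WithLp.toLp 2 (fun i => x (p i)) : Eu (Fin n)) =
      SV (fun _ : Fin n => W) x := by
    unfold SV
    exact Equiv.sum_comp p (fun i => W (x i))
  show SV _ _ ≤ E ↔ SV _ _ ≤ E
  rw [e]

theorem KV_cpt {W W' : ℝ → ℝ} (hW : CV W W') {E : ℝ}
    (hb : Bornology.IsBounded (KV (fun _ : Fin n => W) E)) :
    IsCompact (KV (fun _ : Fin n => W) E) := by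
  apply Metric.isCompact_of_isClosed_isBounded _ hb
  have hc : Continuous W := continuous_iff_continuousAt.2 fun t => (hW.der t).continuousAt
  have : Continuous (SV (fun _ : Fin n => W)) := by
    unfold SV
    fun_prop
  exact isClosed_le this continuous_const

/-- the variances on the body and on its part in the cone agree for symmetric functions -/
theorem VV_cone {K : Set (Eu (Fin n))} (hK : IsCompact K)
    (hs : ∀ (p : Equiv.Perm (Fin n)) (x : Eu (Fin n)),
      (WithLp.toLp 2 (fun i => x (p i)) : Eu (Fin n)) ∈ K ↔ x ∈ K)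
    (R : Fin n → Fin n → Prop) (h1 : ∀ a b, R a b → R b a → a = b)
    (h2 : ∀ a b c, R a b → R b c → R a c) {f : Eu (Fin n) → ℝ} (hf : Continuous f)
    (hfs : SymF f) : VV (K ∩ ordE R) f = VW (ind K) f := by
  obtain ⟨c, hc, hint, -⟩ := t_SRT n R h1 h2
  have hKm : MeasurableSet K := hK.isClosed.measurableSet
  -- the basic identity
  have key : ∀ h : Eu (Fin n) → ℝ, Continuous h → SymF h →
      ∫ x in K ∩ ordE R, h x = c * ∫ x, h x * ind K x := by
    intro h hh hsh
    have e : (fun x => h x * ind K x) = K.indicator h := by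
      funext x
      unfold ind
      by_cases hx : x ∈ K
      · rw [indicator_of_mem hx, indicator_of_mem hx, mul_one]
      · rw [indicator_of_notMem hx, indicator_of_notMem hx, mul_zero]
    have hi : Integrable (K.indicator h) :=
      (integrable_indicator_iff hKm).2 (hh.continuousOn.integrableOn_compact hK)
    have hsy : SymF (K.indicator h) := by
      intro p x
      by_cases hx : x ∈ K
      · rw [indicator_of_mem hx, indicator_of_mem ((hs p x).2 hx), hsh p x]
      · rw [indicator_of_notMem hx, indicator_of_notMem (fun hc => hx ((hs p x).1 hc))]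
    rw [e, ← hint _ hi hsy, setIntegral_indicator hKm, inter_comm]
  have e0 : (volume (K ∩ ordE R)).toReal = c * ∫ x, ind K x := by
    have := key (fun _ => 1) continuous_const (fun _ _ => rfl)
    simp only [one_mul] at this
    rw [← this]
    simp [Measure.real]
  have e1 : ∀ h : Eu (Fin n) → ℝ, Continuous h → SymF h → EV (K ∩ ordE R) h = EW (ind K) h := by
    intro h hh hsh
    unfold EV EW
    rw [key h hh hsh, e0, mul_div_mul_left _ _ hc.ne']
  unfold VV VW
  rw [e1 f hf hfs, e1 (fun x => f x ^ 2) (hf.pow 2) (fun p x => by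
    show f _ ^ 2 = f x ^ 2
    rw [hfs p x])]

theorem t_OVR : S_OVR := by
  have hcov : S_COV := Pool.Agent.R834.OR.cov
    (Pool.Agent.R476.OR.gtw two Pool.Agent.R476.OR.m4r) (plw two)
  obtain ⟨c, C, hc, hC, H⟩ := hcov
  refine ⟨c, hc, ?_⟩
  intro n W W' hn hW hev E hE R h1 h2
  have hnorm := dgn_norm hn
  refine ⟨hnorm, ?_⟩
  obtain ⟨C1, _, hfld⟩ := fld
  have hint : Integrable fun t => W t ^ 4 * Real.exp (-W t) := (hfld W W' hW).1
  have h := (H n (fun _ => W) (fun _ => W') (fun _ => hW) (fun _ => hint) E hE (dgn n)).1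
  have hb : (bb fun _ : Fin n => W) = 0 := by
    ext i
    show bV W = 0
    exact bV_even hev
  rw [hb, inner_zero_left, hnorm] at h
  have hcont : Continuous fun x : Eu (Fin n) => ⟪x, dgn n⟫_ℝ := by fun_prop
  have hsym : SymF fun x : Eu (Fin n) => ⟪x, dgn n⟫_ℝ := by
    intro p x
    show ⟪(WithLp.toLp 2 (fun i => x (p i)) : Eu (Fin n)), dgn n⟫_ℝ = ⟪x, dgn n⟫_ℝ
    rw [inner_dgn, inner_dgn]
    congr 1
    exact Equiv.sum_comp p (fun i => x i)
  rw [VV_cone (KV_cpt hW.cv hE.bdd) (KV_sym W E) R h1 h2 hcont hsym]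
  calc c = c * ((1 : ℝ) ^ 2 - 0 ^ 2 / sg fun _ : Fin n => W) := by norm_num
    _ ≤ _ := h

end Pool.Agent.J4H48.OC
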